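import Pool.Agent.Y462.AR.Stm2
import Mathlib.NumberTheory.Niven
import Mathlib.LinearAlgebra.FreeModule.PID
import Mathlib.LinearAlgebra.Dimension.Free
import Mathlib.LinearAlgebra.StdBasis
import Mathlib.Tactic

/-!
# The stabilizer of the lattice embeds in a general linear group (author helper410)
-/

set_option autoImplicit false

namespace Pool.Agent.Y410.AR

open Pool.Agent.Y462.AR
open Pool.Agent.Y462.SS (Closed)

/-- conjugation by a linear equivalence, as a homomorphism (copy of a definition of helper383) -/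
def conjHom {M N : Type} [AddCommGroup M] [AddCommGroup N] (e : M ≃ₗ[ℤ] N) :
    (M ≃ₗ[ℤ] M) →* (N ≃ₗ[ℤ] N) where
  toFun f := (e.symm.trans f).trans e
  map_one' := by
    ext x
    simp
  map_mul' f g := by
    ext x
    simp

theorem conjHom_injective {M N : Type} [AddCommGroup M] [AddCommGroup N] (e : M ≃ₗ[ℤ] N) :
    Function.Injective (conjHom e) := by
  intro f g h
  ext x
  have h1 := DFunLike.congr_fun h (e x)
  simpa [conjHom] using h1

theorem integral_lam (m : ℕ) : IsIntegral ℤ (lam m) := by
  have h := Real.isIntegral_two_mul_cos_rat_mul_pi (1 / m : ℚ)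
  have e : lam m = 2 * Real.cos (((1 / m : ℚ) : ℝ) * Real.pi) := by
    unfold lam
    congr 2
    push_cast
    ring
  rw [e]
  exact h

theorem fg (n : ℕ) : (Subalgebra.toSubmodule (RR n)).FG := by
  unfold RR
  refine fg_adjoin_of_finite ?_ ?_
  · refine ((Set.finite_Iic n).image lam).subset ?_
    rintro x ⟨m, hm, rfl⟩
    exact ⟨m, hm, rfl⟩
  · rintro x ⟨m, _, rfl⟩
    exact integral_lam m

theorem finite_RR (n : ℕ) : Module.Finite ℤ (RR n) := Module.Finite.iff_fg.2 (fg n)

/-- the lattice -/
abbrev Lt (n : ℕ) (V : Type) : Type := Option V → RR n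

theorem exists_equiv (n : ℕ) (V : Type) [Fintype V] :
    ∃ N : ℕ, Nonempty (Lt n V ≃+ (Fin N → ℤ)) := by
  haveI := finite_RR n
  haveI : Module.Free ℤ (RR n) := Module.free_of_finite_type_torsion_free'
  exact ⟨_, ⟨(Module.finBasis ℤ (Lt n V)).equivFun.toAddEquiv⟩⟩

/-- the inclusion of the lattice -/
def inc {n : ℕ} {V : Type} (w : Lt n V) : Option V → ℝ := fun i => (w i : ℝ)

theorem inc_injective {n : ℕ} {V : Type} : Function.Injective (inc : Lt n V → Option V → ℝ) := by
  intro w w' h
  funext i
  exact Subtype.ext (congrFun h i)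

theorem inc_add {n : ℕ} {V : Type} (w w' : Lt n V) : inc (w + w') = inc w + inc w' := by
  funext i
  rfl

/-- the restriction to the lattice -/
def res {n : ℕ} {V : Type} (g : Stab n V) (w : Lt n V) : Lt n V :=
  fun i => ⟨g.1 (inc w) i, ((g.2 (inc w)).1 (fun j => (w j).2)) i⟩

theorem inc_res {n : ℕ} {V : Type} (g : Stab n V) (w : Lt n V) : inc (res g w) = g.1 (inc w) := by
  funext i
  rfl

theorem res_mul {n : ℕ} {V : Type} (g h : Stab n V) (w : Lt n V) :
    res (g * h) w = res g (res h w) := by
  apply inc_injective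
  rw [inc_res, inc_res, inc_res]
  rfl

theorem res_one {n : ℕ} {V : Type} (w : Lt n V) : res (1 : Stab n V) w = w := by
  apply inc_injective
  rw [inc_res]
  rfl

/-- the restriction as an additive equivalence -/
def resE {n : ℕ} {V : Type} (g : Stab n V) : Lt n V ≃+ Lt n V where
  toFun := res g
  invFun := res g⁻¹
  left_inv w := by rw [← res_mul, inv_mul_cancel, res_one]
  right_inv w := by rw [← res_mul, mul_inv_cancel, res_one]
  map_add' w w' := by
    apply inc_injective
    rw [inc_res, inc_add, inc_add, map_add, inc_res, inc_res]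

/-- the action on the lattice -/
def actHom (n : ℕ) (V : Type) : Stab n V →* (Lt n V ≃ₗ[ℤ] Lt n V) where
  toFun g := (resE g).toIntLinearEquiv
  map_one' := by
    apply LinearEquiv.ext
    intro w
    exact res_one w
  map_mul' g h := by
    apply LinearEquiv.ext
    intro w
    exact res_mul g h w

theorem actHom_injective (n : ℕ) (V : Type) [Fintype V] : Function.Injective (actHom n V) := by
  classical
  intro g h he
  apply Subtype.ext
  have h1 : ∀ w : Lt n V, g.1 (inc w) = h.1 (inc w) := by
    intro w
    have h2 : res g w = res h w := DFunLike.congr_fun he w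
    rw [← inc_res, ← inc_res, h2]
  apply LinearEquiv.toLinearMap_injective
  apply LinearMap.pi_ext'
  intro i
  apply LinearMap.ext_ring
  have h3 := h1 (Pi.single i 1)
  have h4 : inc (Pi.single i 1 : Lt n V) = Pi.single i (1 : ℝ) := by
    funext j
    unfold inc
    by_cases hj : j = i
    · subst hj
      simp
    · simp [Pi.single_eq_of_ne hj]
  rw [h4] at h3
  exact h3

theorem t_lat : S_LAT := by
  intro C hC h n V _
  obtain ⟨N, ⟨ε⟩⟩ := exists_equiv n V
  let E : ((Fin N → ℤ) ≃ₗ[ℤ] (Fin N → ℤ)) →* Matrix.GeneralLinearGroup (Fin N) ℤ :=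
    ((LinearMap.GeneralLinearGroup.generalLinearEquiv ℤ (Fin N → ℤ)).symm.trans
        (Matrix.GeneralLinearGroup.toLin (n := Fin N) (R := ℤ)).symm).toMonoidHom
  refine hC.of_injective _ _ ((E.comp (conjHom ε.toIntLinearEquiv)).comp (actHom n V)) ?_ (h _)
  rw [MonoidHom.coe_comp, MonoidHom.coe_comp]
  exact ((MulEquiv.injective _).comp (conjHom_injective _)).comp (actHom_injective n V)

end Pool.Agent.Y410.AR
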